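import Pool.Agent.H21.AS.Dim

/-!
# Module [H21 AS CHN]: a set without clusters at small scales (asymptotically connected) has dimension at least one

`Clu P ε r A`: `A` is a nonempty part of `P` of diameter at most `r`, at distance at least `ε r` from the rest of `P`.
`ACn P x0`: for every `ε` there are no clusters at scales `r < r0(ε)` which contain a point at distance `< r0` of `x0`.

PROOF. The `ε ρ`-chain component `A` of `x` in `P` is separated from the rest by `ε ρ`, hence it has two points at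
distance more than `ρ`, hence a point at distance more than `ρ / 2` of `x`. Along the chain the distance from `x`
passes through all values between `0` and `ρ / 2` up to `ε ρ`: with `ε = 1 / (10 M)` the values `k / (2 M) ρ`,
`k < M`, give `M` children (`Chd`, `δ = ε`). The dimension is at least `log M / log (10 M)` for all `M`.
-/

set_option autoImplicit false

open Filter Topology Metric Set

namespace Pool.Agent.H21.AS

variable {X : Type*} [MetricSpace X]

/-- a cluster of ratio `ε` at scale `r` -/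
def Clu (P : Set X) (ε r : ℝ) (A : Set X) : Prop :=
  A.Nonempty ∧ A ⊆ P ∧ (∀ x ∈ A, ∀ y ∈ A, dist x y ≤ r) ∧ ∀ x ∈ A, ∀ y ∈ P, y ∉ A → ε * r ≤ dist x y

/-- no clusters near `x0` at small scales -/
def ACn (P : Set X) (x0 : X) : Prop :=
  ∀ ε : ℝ, 0 < ε → ∃ r0 : ℝ, 0 < r0 ∧ ∀ r : ℝ, 0 < r → r < r0 → ∀ A : Set X, Clu P ε r A →
    ∀ x ∈ A, r0 ≤ dist x x0

private theorem chain {P : Set X} {x : X} (hx : x ∈ P) {η ρ : ℝ} (hη : 0 < η)
    (hno : ∀ A : Set X, x ∈ A → A ⊆ P → (∀ x ∈ A, ∀ y ∈ P, y ∉ A → η ≤ dist x y) →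
      ∃ a ∈ A, ∃ b ∈ A, ρ < dist a b) {t : ℝ} (ht : 0 ≤ t) (htρ : t ≤ ρ / 2) :
    ∃ y ∈ P, t ≤ dist y x ∧ dist y x < t + η := by
  let R : X → X → Prop := fun a b => b ∈ P ∧ dist a b < η
  let A : Set X := {y | Relation.ReflTransGen R x y}
  have hAP : ∀ y, Relation.ReflTransGen R x y → y ∈ P := by
    intro y hy
    induction hy with
    | refl => exact hx
    | tail _ h _ => exact h.1
  obtain ⟨a, ha, b, hb, hab⟩ := hno A Relation.ReflTransGen.refl hAP (by
    intro y hy z hz hzA
    by_contra hcon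
    exact hzA (hy.tail ⟨hz, not_le.1 hcon⟩))
  have hfar : ∃ y ∈ A, ρ / 2 < dist y x := by
    by_contra hcon
    push Not at hcon
    have h1 := hcon a ha
    have h2 := hcon b hb
    have h3 := dist_triangle_right a b x
    linarith
  obtain ⟨y, hy, hyf⟩ := hfar
  have hall : ∀ y, Relation.ReflTransGen R x y → t ≤ dist y x → ∃ z ∈ P, t ≤ dist z x ∧ dist z x < t + η := by
    intro y hy
    induction hy with
    | refl =>
      intro h
      rw [dist_self] at h
      exact ⟨x, hx, by rw [dist_self]; exact h, by rw [dist_self]; linarith⟩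
    | @tail b c hb hbc ih =>
      intro h
      by_cases h1 : t ≤ dist b x
      · exact ih h1
      · refine ⟨c, hbc.1, h, ?_⟩
        have h2 := dist_triangle_left c x b
        have h3 := hbc.2
        rw [not_le] at h1
        linarith
  exact hall y hy (by linarith)

theorem chd_of_ac {P : Set X} {x0 : X} (h : ACn P x0) {M : ℕ} (hM : 1 ≤ M) :
    ∃ r0 : ℝ, 0 < r0 ∧ ∀ ρ0 : ℝ, ρ0 < r0 → Chd P x0 M (1 / (10 * M)) ρ0 := by
  have hM0 : (1 : ℝ) ≤ M := by exact_mod_cast hM
  obtain ⟨δ, hδ⟩ : ∃ δ : ℝ, δ = 1 / (10 * (M : ℝ)) := ⟨_, rfl⟩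
  have hδ0 : 0 < δ := by rw [hδ]; positivity
  have hδM : δ * (10 * M) = 1 := by rw [hδ]; field_simp
  obtain ⟨r0, hr0, hac⟩ := h δ hδ0
  refine ⟨r0, hr0, fun ρ0 hρ0 x hx hxx ρ hρ hρρ => ?_⟩
  rw [← hδ]
  have hno : ∀ A : Set X, x ∈ A → A ⊆ P → (∀ x ∈ A, ∀ y ∈ P, y ∉ A → δ * ρ ≤ dist x y) →
      ∃ a ∈ A, ∃ b ∈ A, ρ < dist a b := by
    intro A hxA hAP hsep
    by_contra hcon
    push Not at hcon
    have h1 := hac ρ hρ (by linarith) A ⟨⟨x, hxA⟩, hAP, hcon, hsep⟩ x hxA
    linarith
  have hch : ∀ k : Fin M, ∃ y ∈ P, (k : ℝ) * (5 * δ * ρ) ≤ dist y x ∧ dist y x < (k : ℝ) * (5 * δ * ρ) + δ * ρ := by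
    intro k
    have hk : (k : ℝ) + 1 ≤ M := by exact_mod_cast k.2
    refine chain hx (by positivity) hno (by positivity) ?_
    have h1 : (k : ℝ) * (5 * δ * ρ) = (k * δ) * 5 * ρ := by ring
    have h2 : (k : ℝ) * δ ≤ 1 / 10 := by nlinarith
    rw [h1]
    nlinarith
  choose y hy hy1 hy2 using hch
  refine ⟨y, fun k => ⟨hy k, ?_⟩, ?_⟩
  · have hk : (k : ℝ) + 1 ≤ M := by exact_mod_cast k.2
    have h3 := hy2 k
    have h2 : (k : ℝ) * δ ≤ 1 / 10 := by nlinarith
    have h4 : δ ≤ 1 / 10 := by nlinarith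
    have h5 : (k : ℝ) * (5 * δ * ρ) + δ * ρ = (5 * (k * δ) + δ) * ρ := by ring
    rw [h5] at h3
    nlinarith
  · have hlt : ∀ k l : Fin M, k < l → 4 * δ * ρ ≤ dist (y k) (y l) := by
      intro k l hkl
      have h1 := hy2 k
      have h2 := hy1 l
      have h3 := dist_triangle_left (y l) x (y k)
      have h4 : (k : ℝ) + 1 ≤ l := by exact_mod_cast hkl
      have h5 : ((k : ℝ) + 1) * (5 * δ * ρ) ≤ l * (5 * δ * ρ) := mul_le_mul_of_nonneg_right h4 (by positivity)
      linarith
    intro k l hkl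
    rcases lt_or_gt_of_ne hkl with h1 | h1
    · exact hlt k l h1
    · rw [dist_comm]
      exact hlt l k h1

private theorem logs : Tendsto (fun M : ℕ => Real.log M / Real.log (10 * M)) atTop (𝓝 1) := by
  have h1 : Tendsto (fun M : ℕ => Real.log 10 / Real.log (M : ℝ)) atTop (𝓝 0) :=
    (tendsto_const_nhds (x := Real.log 10)).div_atTop (Real.tendsto_log_atTop.comp tendsto_natCast_atTop_atTop)
  have h2 : Tendsto (fun M : ℕ => (Real.log 10 / Real.log (M : ℝ) + 1)⁻¹) atTop (𝓝 1) := by
    have h3 := (h1.add_const 1).inv₀ (by norm_num)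
    simpa using h3
  refine h2.congr' ?_
  filter_upwards [eventually_ge_atTop 2] with M hM
  have hM1 : (1 : ℝ) < M := by exact_mod_cast hM
  have hl := Real.log_pos hM1
  have h10 : 0 < Real.log 10 := Real.log_pos (by norm_num)
  rw [Real.log_mul (by norm_num) (by linarith)]
  field_simp

variable [CompleteSpace X]

/-- a closed set without clusters at small scales near a point of it has local dimension at least one there -/
theorem dim_ac {P : Set X} (hP : IsClosed P) {x0 : X} (h0 : x0 ∈ P) (h : ACn P x0) {r : ℝ} (hr : 0 < r) :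
    1 ≤ dimH (P ∩ ball x0 r) := by
  have key : ∀ M : ℕ, 2 ≤ M → ENNReal.ofReal (Real.log M / Real.log (10 * M)) ≤ dimH (P ∩ ball x0 r) := by
    intro M hM
    have hM2 : (2 : ℝ) ≤ M := by exact_mod_cast hM
    obtain ⟨r0, hr0, hch⟩ := chd_of_ac h (M := M) (by omega)
    have hm : 0 < min r0 r := lt_min hr0 hr
    have h1 := dim_chd hP h0 hM (δ := 1 / (10 * M)) (ρ0 := min r0 r / 4) (by positivity) (by
      rw [div_le_div_iff₀ (by positivity) (by norm_num)]
      linarith) (by positivity) (hch _ (by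
        have := min_le_left r0 r
        linarith))
    rw [one_div_one_div] at h1
    refine h1.trans (dimH_mono (inter_subset_inter_right _ fun y hy => ?_))
    rw [mem_closedBall] at hy
    rw [mem_ball]
    have := min_le_right r0 r
    linarith
  have hlim : Tendsto (fun M : ℕ => ENNReal.ofReal (Real.log M / Real.log (10 * M))) atTop (𝓝 1) := by
    have h1 := ENNReal.tendsto_ofReal logs
    rwa [ENNReal.ofReal_one] at h1
  exact le_of_tendsto hlim (by
    filter_upwards [eventually_ge_atTop 2] with M hM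
    exact key M hM)

end Pool.Agent.H21.AS
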