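import Mathlib

/-!
# Module [H21 AS DIM]: M children with the ratio `δ` at all small scales near a point: `dimH ≥ log M / log (1/δ)`

(as `H66/UP/Dim` and `H83/BE/DimS`, with `M` children instead of 2.)

PROOF. `M`-ary tree: `xs ω 0 = x0`, `xs ω (n+1)` = the child number `ω n` of `xs ω n` at the scale `ρ n`,
`ρ n = (ρ0 / 2) δ ^ n`. The limits `F ω` are in `P`, in the ball of radius `2 ρ0`, and `dist (F ω) (F ω') ≥ δ ρ n` if
`ω`, `ω'` differ first at `n`. The map `F ω ↦ ∑ ω n / M ^ (n+1)` is Hölder continuous with the exponent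
`log M / log (1/δ)`, onto `[0,1]`.
-/

set_option autoImplicit false

open Filter Topology Metric Set

namespace Pool.Agent.H21.AS

variable {X : Type*} [MetricSpace X]

/-- every point of `P` near `x0` has at all scales `ρ ≤ ρ0` `M` children in `P`, at distance at most `ρ`, which are
`4 δ ρ`-separated -/
def Chd (P : Set X) (x0 : X) (M : ℕ) (δ ρ0 : ℝ) : Prop :=
  ∀ x ∈ P, dist x x0 ≤ ρ0 → ∀ ρ : ℝ, 0 < ρ → ρ ≤ ρ0 → ∃ y : Fin M → X, (∀ k, y k ∈ P ∧ dist (y k) x ≤ ρ) ∧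
    ∀ k l, k ≠ l → 4 * δ * ρ ≤ dist (y k) (y l)

open Classical in
/-- the children -/
private noncomputable def Yc (P : Set X) (M : ℕ) (δ : ℝ) (x : X) (ρ : ℝ) : Fin M → X :=
  if h : ∃ y : Fin M → X, (∀ k, y k ∈ P ∧ dist (y k) x ≤ ρ) ∧ ∀ k l, k ≠ l → 4 * δ * ρ ≤ dist (y k) (y l) then
    h.choose else fun _ => x

/-- the tree -/
private noncomputable def xs (P : Set X) (x0 : X) (M : ℕ) (δ : ℝ) (ρ : ℕ → ℝ) (ω : ℕ → Fin M) : ℕ → X
  | 0 => x0
  | n + 1 => Yc P M δ (xs P x0 M δ ρ ω n) (ρ n) (ω n)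

private theorem xs_agree (P : Set X) (x0 : X) (M : ℕ) (δ : ℝ) (ρ : ℕ → ℝ) {ω ω' : ℕ → Fin M} {n : ℕ}
    (h : ∀ i < n, ω i = ω' i) : xs P x0 M δ ρ ω n = xs P x0 M δ ρ ω' n := by
  induction n with
  | zero => rfl
  | succ n ih =>
    have h1 := ih fun i hi => h i (by omega)
    have h2 := h n (by omega)
    show Yc P M δ (xs P x0 M δ ρ ω n) (ρ n) (ω n) = Yc P M δ (xs P x0 M δ ρ ω' n) (ρ n) (ω' n)
    rw [h1, h2]

variable [CompleteSpace X]

theorem dim_chd {P : Set X} (hP : IsClosed P) {x0 : X} (h0 : x0 ∈ P) {M : ℕ} (hM : 2 ≤ M) {δ ρ0 : ℝ} (hδ : 0 < δ)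
    (hδ8 : δ ≤ 1 / 8) (hρ : 0 < ρ0) (hup : Chd P x0 M δ ρ0) :
    ENNReal.ofReal (Real.log M / Real.log (1 / δ)) ≤ dimH (P ∩ closedBall x0 (2 * ρ0)) := by
  have hδ1 : δ < 1 := by linarith
  obtain ⟨ρ, hρd⟩ : ∃ ρ : ℕ → ℝ, ρ = fun n => ρ0 / 2 * δ ^ n := ⟨_, rfl⟩
  have hρn : ∀ n, ρ n = ρ0 / 2 * δ ^ n := fun n => by rw [hρd]
  have hρpos : ∀ n, 0 < ρ n := fun n => by rw [hρn]; positivity
  have hρle : ∀ n, ρ n ≤ ρ0 := fun n => by
    rw [hρn]
    have h1 : δ ^ n ≤ 1 := pow_le_one₀ hδ.le hδ1.le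
    nlinarith
  -- the sum of the radii
  have hsum : ∀ n, (∑ i ∈ Finset.range n, ρ i) ≤ ρ0 := by
    intro n
    have h1 : ∑ i ∈ Finset.range n, ρ i = ρ0 / 2 * ∑ i ∈ Finset.range n, δ ^ i := by
      rw [Finset.mul_sum]
      exact Finset.sum_congr rfl fun i _ => hρn i
    have h2 : ∑ i ∈ Finset.range n, δ ^ i ≤ (1 - δ)⁻¹ := by
      rw [← tsum_geometric_of_lt_one hδ.le hδ1]
      exact (summable_geometric_of_lt_one hδ.le hδ1).sum_le_tsum _ fun i _ => by positivity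
    have h3 : (1 - δ)⁻¹ ≤ 2 := by
      rw [inv_le_comm₀ (by linarith) (by norm_num)]
      linarith
    rw [h1]
    nlinarith
  -- the points of the tree
  have key : ∀ (ω : ℕ → Fin M) (n : ℕ), xs P x0 M δ ρ ω n ∈ P ∧
      dist (xs P x0 M δ ρ ω n) x0 ≤ ∑ i ∈ Finset.range n, ρ i := by
    intro ω n
    induction n with
    | zero =>
      refine ⟨h0, ?_⟩
      show dist x0 x0 ≤ _
      rw [dist_self, Finset.sum_range_zero]
    | succ n ih =>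
      obtain ⟨h1, h2⟩ := ih
      have hex := hup _ h1 (h2.trans (hsum n)) (ρ n) (hρpos n) (hρle n)
      rw [Finset.sum_range_succ]
      show Yc P M δ (xs P x0 M δ ρ ω n) (ρ n) (ω n) ∈ P ∧ dist (Yc P M δ (xs P x0 M δ ρ ω n) (ρ n) (ω n)) x0 ≤ _
      unfold Yc
      rw [dif_pos hex]
      obtain ⟨h3, h4⟩ := hex.choose_spec
      obtain ⟨h5, h6⟩ := h3 (ω n)
      refine ⟨h5, (dist_triangle _ (xs P x0 M δ ρ ω n) _).trans ?_⟩
      linarith
  have hYs : ∀ (ω : ℕ → Fin M) (n : ℕ), (∀ k, dist (Yc P M δ (xs P x0 M δ ρ ω n) (ρ n) k) (xs P x0 M δ ρ ω n) ≤ ρ n) ∧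
      ∀ k l, k ≠ l → 4 * δ * ρ n ≤ dist (Yc P M δ (xs P x0 M δ ρ ω n) (ρ n) k) (Yc P M δ (xs P x0 M δ ρ ω n) (ρ n) l) := by
    intro ω n
    obtain ⟨h1, h2⟩ := key ω n
    have hex := hup _ h1 (h2.trans (hsum n)) (ρ n) (hρpos n) (hρle n)
    unfold Yc
    rw [dif_pos hex]
    exact ⟨fun k => (hex.choose_spec.1 k).2, hex.choose_spec.2⟩
  have hstep : ∀ (ω : ℕ → Fin M) (n : ℕ), dist (xs P x0 M δ ρ ω n) (xs P x0 M δ ρ ω (n + 1)) ≤ ρ0 / 2 * δ ^ n := by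
    intro ω n
    rw [← hρn, dist_comm]
    exact (hYs ω n).1 (ω n)
  have hlim : ∀ ω : ℕ → Fin M, ∃ y, Tendsto (xs P x0 M δ ρ ω) atTop (𝓝 y) := fun ω =>
    cauchySeq_tendsto_of_complete (cauchySeq_of_le_geometric δ (ρ0 / 2) hδ1 (hstep ω))
  choose F hF using hlim
  have hFP : ∀ ω, F ω ∈ P := fun ω => hP.mem_of_tendsto (hF ω) (Eventually.of_forall fun n => (key ω n).1)
  have hFd : ∀ ω n, dist (xs P x0 M δ ρ ω n) (F ω) ≤ ρ0 / 2 * δ ^ n / (1 - δ) := fun ω n =>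
    dist_le_of_le_geometric_of_tendsto δ (ρ0 / 2) hδ1 (hstep ω) (hF ω) n
  have hFB : ∀ ω, F ω ∈ closedBall x0 (2 * ρ0) := by
    intro ω
    have h1 := hFd ω 0
    have h2 : xs P x0 M δ ρ ω 0 = x0 := rfl
    rw [h2, pow_zero, mul_one] at h1
    rw [mem_closedBall, dist_comm]
    refine h1.trans ?_
    rw [div_le_iff₀ (by linarith)]
    nlinarith
  have hFd' : ∀ ω n, dist (xs P x0 M δ ρ ω (n + 1)) (F ω) ≤ 3 / 2 * δ * ρ n := by
    intro ω n
    refine (hFd ω (n + 1)).trans ?_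
    rw [hρn, pow_succ, div_le_iff₀ (by linarith)]
    have h2 : 0 ≤ ρ0 / 2 * δ ^ n * δ := by positivity
    have h3 : ρ0 / 2 * (δ ^ n * δ) = ρ0 / 2 * δ ^ n * δ * 1 := by ring
    have h4 : 3 / 2 * δ * (ρ0 / 2 * δ ^ n) * (1 - δ) = ρ0 / 2 * δ ^ n * δ * (3 / 2 * (1 - δ)) := by ring
    rw [h3, h4]
    exact mul_le_mul_of_nonneg_left (by linarith) h2
  -- separation
  have hsep : ∀ (ω ω' : ℕ → Fin M) (n : ℕ), (∀ i < n, ω i = ω' i) → ω n ≠ ω' n →
      δ * ρ n ≤ dist (F ω) (F ω') := by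
    intro ω ω' n hag hne
    have e3 := xs_agree P x0 M δ ρ hag
    have h1 := (hYs ω n).2 _ _ hne
    have h2 : Yc P M δ (xs P x0 M δ ρ ω n) (ρ n) (ω n) = xs P x0 M δ ρ ω (n + 1) := rfl
    have h3 : Yc P M δ (xs P x0 M δ ρ ω n) (ρ n) (ω' n) = xs P x0 M δ ρ ω' (n + 1) := by
      rw [e3]
      rfl
    rw [h2, h3] at h1
    have h4 := hFd' ω n
    have h5 := hFd' ω' n
    have h6 : dist (xs P x0 M δ ρ ω (n + 1)) (xs P x0 M δ ρ ω' (n + 1)) ≤
        dist (xs P x0 M δ ρ ω (n + 1)) (F ω) + dist (F ω) (F ω') + dist (F ω') (xs P x0 M δ ρ ω' (n + 1)) :=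
      dist_triangle4 _ _ _ _
    rw [dist_comm (F ω') (xs P x0 M δ ρ ω' (n + 1))] at h6
    linarith
  -- first difference
  have hfd : ∀ ω ω' : ℕ → Fin M, ω ≠ ω' → ∃ n, (∀ i < n, ω i = ω' i) ∧ ω n ≠ ω' n := by
    classical
    intro ω ω' hne
    have hex : ∃ n, ω n ≠ ω' n := by
      by_contra hcon
      push Not at hcon
      exact hne (funext hcon)
    refine ⟨Nat.find hex, fun i hi => ?_, Nat.find_spec hex⟩
    by_contra hcon
    exact Nat.find_min hex hi hcon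
  have hinj : Function.Injective F := by
    intro ω ω' he
    by_contra hne
    obtain ⟨n, h1, h2⟩ := hfd ω ω' hne
    have h3 := hsep ω ω' n h1 h2
    rw [he, dist_self] at h3
    have h4 : 0 < δ * ρ n := mul_pos hδ (hρpos n)
    linarith
  -- the Hölder map
  have hM1 : (1 : ℝ) < M := by exact_mod_cast hM
  obtain ⟨s, hs⟩ : ∃ s : ℝ, s = Real.log M / Real.log (1 / δ) := ⟨_, rfl⟩
  have hL : 0 < Real.log (1 / δ) := Real.log_pos (by rw [lt_div_iff₀ hδ]; linarith)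
  have hs0 : 0 < s := by
    rw [hs]
    have := Real.log_pos hM1
    positivity
  have hrs : ∀ n : ℕ, (δ ^ n) ^ s = ((M : ℝ) ^ n)⁻¹ := by
    intro n
    have h1 : δ ^ s = (M : ℝ)⁻¹ := by
      have h2 : δ = Real.exp (-Real.log (1 / δ)) := by
        rw [Real.exp_neg, Real.exp_log (by positivity)]
        simp
      have h3 : -Real.log (1 / δ) * s = -Real.log M := by
        rw [hs]
        field_simp
      calc δ ^ s = (Real.exp (-Real.log (1 / δ))) ^ s := by rw [← h2]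
        _ = Real.exp (-Real.log (1 / δ) * s) := (Real.exp_mul _ _).symm
        _ = (M : ℝ)⁻¹ := by rw [h3, Real.exp_neg, Real.exp_log (by linarith)]
    rw [← Real.rpow_natCast δ n, ← Real.rpow_mul hδ.le, mul_comm (n : ℝ) s, Real.rpow_mul hδ.le, h1,
      Real.rpow_natCast, inv_pow]
  obtain ⟨G, hG⟩ : ∃ G : X → ℝ, G = Function.extend F (Real.ofDigits (b := M)) (fun _ => 0) := ⟨_, rfl⟩
  have hGF : ∀ ω, G (F ω) = Real.ofDigits ω := by
    intro ω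
    rw [hG]
    exact hinj.extend_apply _ _ ω
  have hhol : ∀ ω ω', |Real.ofDigits ω - Real.ofDigits ω'| ≤ (2 / (ρ0 * δ)) ^ s * dist (F ω) (F ω') ^ s := by
    intro ω ω'
    by_cases hne : ω = ω'
    · rw [hne, sub_self, abs_zero]
      positivity
    · obtain ⟨n, h1, h2⟩ := hfd ω ω' hne
      have h3 := hsep ω ω' n h1 h2
      have h4 := Real.abs_ofDigits_sub_ofDigits_le h1
      refine h4.trans ?_
      have h5 : δ ^ n ≤ 2 / (ρ0 * δ) * dist (F ω) (F ω') := by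
        rw [hρn] at h3
        have h6 : δ ^ n = 2 / (ρ0 * δ) * (δ * (ρ0 / 2 * δ ^ n)) := by
          field_simp
        calc δ ^ n = 2 / (ρ0 * δ) * (δ * (ρ0 / 2 * δ ^ n)) := h6
          _ ≤ _ := mul_le_mul_of_nonneg_left h3 (by positivity)
      have h6 := Real.rpow_le_rpow (by positivity) h5 hs0.le
      rw [hrs, Real.mul_rpow (by positivity) dist_nonneg] at h6
      exact_mod_cast h6
  have hC0 : 0 ≤ (2 / (ρ0 * δ)) ^ s := by positivity
  obtain ⟨Cn, hCn⟩ : ∃ Cn : NNReal, (Cn : ℝ) = (2 / (ρ0 * δ)) ^ s := ⟨⟨_, hC0⟩, rfl⟩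
  obtain ⟨Sn, hSn⟩ : ∃ Sn : NNReal, (Sn : ℝ) = s := ⟨⟨_, hs0.le⟩, rfl⟩
  have hHol : HolderOnWith Cn Sn G (range F) := by
    rintro _ ⟨ω, rfl⟩ _ ⟨ω', rfl⟩
    rw [hGF, hGF, edist_dist, edist_dist, Real.dist_eq, hSn]
    have h1 := hhol ω ω'
    rw [ENNReal.ofReal_rpow_of_nonneg dist_nonneg hs0.le]
    have h3 : (Cn : ENNReal) = ENNReal.ofReal ((2 / (ρ0 * δ)) ^ s) := by
      rw [← hCn, ENNReal.ofReal_coe_nnreal]
    rw [h3, ← ENNReal.ofReal_mul hC0]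
    exact ENNReal.ofReal_le_ofReal h1
  have himg : Icc (0 : ℝ) 1 ⊆ G '' range F := by
    intro t ht
    obtain ⟨ω, -, hω⟩ := Real.ofDigits_SurjOn (b := M) (by omega) ht
    exact ⟨F ω, ⟨ω, rfl⟩, by rw [hGF, hω]⟩
  have hdim1 : (1 : ENNReal) ≤ dimH (G '' range F) := by
    have h1 : dimH (Icc (0 : ℝ) 1) = 1 := by
      rw [Real.dimH_of_nonempty_interior]
      · simp
      · rw [interior_Icc]
        exact ⟨1 / 2, by norm_num, by norm_num⟩
    rw [← h1]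
    exact dimH_mono himg
  have hrs0 : (0 : NNReal) < Sn := by
    rw [← NNReal.coe_pos, hSn]
    exact hs0
  have h2 := hHol.dimH_image_le hrs0
  have h3 : dimH (range F) ≤ dimH (P ∩ closedBall x0 (2 * ρ0)) :=
    dimH_mono (by rintro _ ⟨ω, rfl⟩; exact ⟨hFP ω, hFB ω⟩)
  have h4 : (1 : ENNReal) ≤ dimH (range F) / Sn := hdim1.trans h2
  have h5 : ENNReal.ofReal s = Sn := by rw [← hSn, ENNReal.ofReal_coe_nnreal]
  rw [← hs, h5]
  refine le_trans ?_ h3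
  have h6 : (Sn : ENNReal) ≠ 0 := by exact_mod_cast hrs0.ne'
  have h7 := (ENNReal.le_div_iff_mul_le (Or.inl h6) (Or.inl ENNReal.coe_ne_top)).1 h4
  rwa [one_mul] at h7

end Pool.Agent.H21.AS
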