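import Pool.Agent.H21.AS.Chn
import Pool.Agent.H83.BE.DimS

/-!
# Module [H21 AS SPH]: asymptotically connected closed sets of the sphere: rings and dimension

`CluS P ε r A`: `A` is a cluster of `P` of ratio `ε` at the scale `r` for the chordal distance (a nonempty part of `P` of
diameter at most `r` at distance at least `ε r` from the rest of `P`). `ACs P`: for every `ε` there are no clusters of
ratio `ε` at small scales.

`ac_chain`: then every point of `P` is the start of a chain in `P` with steps `< ε r` to a point at distance `> r`.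
`up_ac`: every ring `κ r ≤ d < r`, `κ < 1`, around a point of `P` contains a point of `P`, at small scales (`UPd κ P`).
`dims_ac`: the planar part of every nonempty relatively open part of `P` has Hausdorff dimension at least one.
-/

set_option autoImplicit false

open Filter Topology Metric Set

namespace Pool.Agent.H21.AS

open Pool.Agent.H35.EX (chord)
open Pool.Agent.H83.BE (UPd)

/-- a cluster for the chordal distance -/
def CluS (P : Set (OnePoint ℂ)) (ε r : ℝ) (A : Set (OnePoint ℂ)) : Prop :=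
  A.Nonempty ∧ A ⊆ P ∧ (∀ x ∈ A, ∀ y ∈ A, chord x y ≤ r) ∧ ∀ x ∈ A, ∀ y ∈ P, y ∉ A → ε * r ≤ chord x y

/-- asymptotically connected: no clusters at small scales -/
def ACs (P : Set (OnePoint ℂ)) : Prop :=
  ∀ ε : ℝ, 0 < ε → ∃ r0 : ℝ, 0 < r0 ∧ ∀ r : ℝ, 0 < r → r < r0 → ∀ A : Set (OnePoint ℂ), ¬ CluS P ε r A

theorem not_ac {P : Set (OnePoint ℂ)} (h : ¬ ACs P) : ∃ ε : ℝ, 0 < ε ∧ ∀ r0 : ℝ, 0 < r0 →
    ∃ r : ℝ, 0 < r ∧ r < r0 ∧ ∃ A : Set (OnePoint ℂ), CluS P ε r A := by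
  unfold ACs at h
  push Not at h
  exact h

private theorem ch_self (x : OnePoint ℂ) : chord x x = 0 := by
  induction x using OnePoint.rec with
  | infty => rfl
  | coe z =>
    show ‖z - z‖ / _ = 0
    rw [sub_self, norm_zero, zero_div]

/-- the chain relation -/
def Stp (P : Set (OnePoint ℂ)) (η : ℝ) (a b : OnePoint ℂ) : Prop := b ∈ P ∧ chord a b < η

/-- chains -/
theorem ac_chain {P : Set (OnePoint ℂ)} (h : ACs P) {ε : ℝ} (hε : 0 < ε) : ∃ r0 : ℝ, 0 < r0 ∧ ∀ x ∈ P, ∀ r : ℝ,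
    0 < r → r < r0 → ∃ y, Relation.ReflTransGen (Stp P (ε * r)) x y ∧ r < chord x y := by
  obtain ⟨r0, hr0, hac⟩ := h (ε / 2) (by positivity)
  refine ⟨r0 / 2, by positivity, fun x hx r hr hrr => ?_⟩
  have hAP : ∀ y, Relation.ReflTransGen (Stp P (ε * r)) x y → y ∈ P := by
    intro y hy
    induction hy with
    | refl => exact hx
    | tail _ h _ => exact h.1
  by_contra hcon
  push Not at hcon
  refine hac (2 * r) (by positivity) (by linarith) {y | Relation.ReflTransGen (Stp P (ε * r)) x y}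
    ⟨⟨x, Relation.ReflTransGen.refl⟩, hAP, ?_, ?_⟩
  · intro a ha b hb
    have h1 := hcon a ha
    have h2 := hcon b hb
    have h3 := Pool.Agent.H44.RC.ch_tri a x b
    rw [Pool.Agent.H44.RC.ch_comm a x] at h3
    linarith
  · intro a ha y hy hyA
    have h1 : ε / 2 * (2 * r) = ε * r := by ring
    rw [h1]
    by_contra hlt
    exact hyA (Relation.ReflTransGen.tail ha ⟨hy, not_le.1 hlt⟩)

/-- along a chain all distances are taken, up to the step -/
theorem chain_mid {P : Set (OnePoint ℂ)} {x : OnePoint ℂ} (hx : x ∈ P) {η t : ℝ} (hη : 0 < η) (ht : 0 ≤ t)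
    {y : OnePoint ℂ} (hy : Relation.ReflTransGen (Stp P η) x y) (hty : t ≤ chord x y) :
    ∃ z ∈ P, t ≤ chord x z ∧ chord x z < t + η := by
  induction hy with
  | refl =>
    rw [ch_self] at hty
    exact ⟨x, hx, by rw [ch_self]; exact hty, by rw [ch_self]; linarith⟩
  | @tail b c hb hbc ih =>
    by_cases h1 : t ≤ chord x b
    · exact ih h1
    · refine ⟨c, hbc.1, hty, ?_⟩
      have h2 := Pool.Agent.H44.RC.ch_tri x b c
      have h3 := hbc.2
      rw [not_le] at h1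
      linarith

/-- all rings meet an asymptotically connected set -/
theorem up_ac {P : Set (OnePoint ℂ)} (h : ACs P) {κ : ℝ} (hκ : 0 < κ) (hκ1 : κ < 1) : UPd κ P := by
  obtain ⟨r0, hr0, hch⟩ := ac_chain h (ε := 1 - κ) (by linarith)
  refine ⟨r0, hr0, fun x hx r hr hrr => ?_⟩
  obtain ⟨y, hy, hxy⟩ := hch x hx r hr hrr
  obtain ⟨z, hz, h1, h2⟩ := chain_mid hx (η := (1 - κ) * r) (t := κ * r) (by nlinarith) (by positivity) hy (by nlinarith)
  exact ⟨z, hz, h1, by linarith⟩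

private theorem pt_fin {P U : Set (OnePoint ℂ)} (h : ACs P) (hU : IsOpen U) (hne : (P ∩ U).Nonempty) :
    ∃ x0 : ℂ, (x0 : OnePoint ℂ) ∈ P ∩ U := by
  obtain ⟨x, hx, hxU⟩ := hne
  by_cases hi : x = OnePoint.infty
  · obtain ⟨r0, hr0, hup⟩ := up_ac h (κ := 1 / 2) (by norm_num) (by norm_num)
    obtain ⟨r1, hr1, hr1U⟩ := Pool.Agent.H44.RC.ch_nhds (hU.mem_nhds hxU)
    have hm : 0 < min r0 r1 := lt_min hr0 hr1
    obtain ⟨y, hy, h1, h2⟩ := hup x hx (min r0 r1 / 2) (by positivity) (by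
      have := min_le_left r0 r1
      linarith)
    have h3 : chord x y < r1 := by
      have := min_le_right r0 r1
      linarith
    have h4 : y ≠ OnePoint.infty := by
      rintro rfl
      rw [hi, ch_self] at h1
      linarith
    obtain ⟨z, hz⟩ := OnePoint.ne_infty_iff_exists.1 h4
    exact ⟨z, by rw [hz]; exact ⟨hy, hr1U h3⟩⟩
  · obtain ⟨z, hz⟩ := OnePoint.ne_infty_iff_exists.1 hi
    exact ⟨z, by rw [hz]; exact ⟨hx, hxU⟩⟩

/-- chordal and euclidean distance near a point of the plane -/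
private theorem ch_near (x0 : ℂ) : ∃ m : ℝ, 0 < m ∧ ∀ z w : ℂ, ‖z - x0‖ < 1 → ‖w - x0‖ < 1 →
    m * ‖z - w‖ ≤ chord (z : OnePoint ℂ) (w : OnePoint ℂ) := by
  obtain ⟨q, hq⟩ : ∃ q : ℝ, q = √(1 + (‖x0‖ + 1) ^ 2) := ⟨_, rfl⟩
  have hq0 : 0 < q := by
    rw [hq]
    exact Real.sqrt_pos.2 (by positivity)
  have hb : ∀ z : ℂ, ‖z - x0‖ < 1 → √(1 + ‖z‖ ^ 2) ≤ q := by
    intro z hz
    rw [hq]
    apply Real.sqrt_le_sqrt
    have h1 : ‖z‖ ≤ ‖x0‖ + 1 := by
      have h2 := norm_add_le (z - x0) x0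
      rw [sub_add_cancel] at h2
      linarith
    have h3 := norm_nonneg z
    nlinarith
  refine ⟨1 / (q * q), by positivity, fun z w hz hw => ?_⟩
  have h3 : chord (z : OnePoint ℂ) (w : OnePoint ℂ) = ‖z - w‖ / (√(1 + ‖z‖ ^ 2) * √(1 + ‖w‖ ^ 2)) := rfl
  rw [h3, one_div_mul_eq_div]
  have hz0 : 0 < √(1 + ‖z‖ ^ 2) := Real.sqrt_pos.2 (by positivity)
  have hw0 : 0 < √(1 + ‖w‖ ^ 2) := Real.sqrt_pos.2 (by positivity)
  exact div_le_div_of_nonneg_left (norm_nonneg _) (by positivity)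
    (mul_le_mul (hb z hz) (hb w hw) hw0.le hq0.le)

/-- the planar part is asymptotically connected near its points -/
theorem acn_of_acs {P : Set (OnePoint ℂ)} (h : ACs P) (x0 : ℂ) : ACn {z : ℂ | (z : OnePoint ℂ) ∈ P} x0 := by
  intro ε hε
  obtain ⟨m, hm, hnear⟩ := ch_near x0
  have hUn : ((↑) : ℂ → OnePoint ℂ) '' ball x0 1 ∈ 𝓝 (x0 : OnePoint ℂ) :=
    (OnePoint.isOpenEmbedding_coe.isOpenMap _ isOpen_ball).mem_nhds (mem_image_of_mem _ (mem_ball_self one_pos))
  obtain ⟨r1, hr1, hr1U⟩ := Pool.Agent.H44.RC.ch_nhds hUn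
  obtain ⟨r0, hr0, hac⟩ := h (m * ε) (by positivity)
  obtain ⟨s, hs⟩ : ∃ s : ℝ, s = min (min r0 (1 / 2)) (min (r1 / 4) (r1 / 4 / (m * ε))) := ⟨_, rfl⟩
  have hs0 : 0 < s := by rw [hs]; positivity
  have k1 : s ≤ r0 := by rw [hs]; exact (min_le_left _ _).trans (min_le_left _ _)
  have k2 : s ≤ 1 / 2 := by rw [hs]; exact (min_le_left _ _).trans (min_le_right _ _)
  have k3 : s ≤ r1 / 4 := by rw [hs]; exact (min_le_right _ _).trans (min_le_left _ _)
  have k4 : s ≤ r1 / 4 / (m * ε) := by rw [hs]; exact (min_le_right _ _).trans (min_le_right _ _)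
  rw [le_div_iff₀ (by positivity)] at k4
  refine ⟨s, hs0, fun r hr hrs A hA x hx => ?_⟩
  obtain ⟨-, hAP, hdiam, hsep⟩ := hA
  by_contra hcon
  rw [not_le, dist_eq_norm] at hcon
  have hnx : ∀ y ∈ A, ‖y - x0‖ < 2 * s := by
    intro y hy
    have h1 := hdiam y hy x hx
    rw [dist_eq_norm] at h1
    have h2 := norm_sub_le_norm_sub_add_norm_sub y x x0
    linarith
  refine hac r hr (by linarith) (((↑) : ℂ → OnePoint ℂ) '' A) ⟨⟨_, mem_image_of_mem _ hx⟩, ?_, ?_, ?_⟩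
  · rintro _ ⟨y, hy, rfl⟩
    exact hAP hy
  · rintro _ ⟨y, hy, rfl⟩ _ ⟨z, hz, rfl⟩
    have h1 := hdiam y hy z hz
    rw [dist_eq_norm] at h1
    exact (Pool.Agent.H57.CF.upf_le y z).trans h1
  · rintro _ ⟨y, hy, rfl⟩ w hw hwA
    by_cases hwb : chord (x0 : OnePoint ℂ) w < r1
    · obtain ⟨z, hz, rfl⟩ := hr1U hwb
      have hzA : z ∉ A := fun h1 => hwA (mem_image_of_mem _ h1)
      have h1 := hsep y hy z hw hzA
      rw [dist_eq_norm] at h1
      have h2 := hnear y z (by have := hnx y hy; linarith) (mem_ball_iff_norm.1 hz)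
      refine le_trans ?_ h2
      rw [mul_assoc]
      exact mul_le_mul_of_nonneg_left h1 hm.le
    · rw [not_lt] at hwb
      have h1 := Pool.Agent.H44.RC.ch_tri (x0 : OnePoint ℂ) (y : OnePoint ℂ) w
      have h2 : chord (x0 : OnePoint ℂ) (y : OnePoint ℂ) ≤ ‖x0 - y‖ := Pool.Agent.H57.CF.upf_le x0 y
      rw [norm_sub_rev] at h2
      have h3 := hnx y hy
      have h4 : m * ε * r ≤ r1 / 4 := by
        have h5 : m * ε * r ≤ m * ε * s := mul_le_mul_of_nonneg_left hrs.le (by positivity)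
        linarith
      linarith

/-- local dimension at least one -/
theorem dims_ac {P U : Set (OnePoint ℂ)} (hP : IsClosed P) (h : ACs P) (hU : IsOpen U)
    (hne : (P ∩ U).Nonempty) : 1 ≤ dimH {z : ℂ | (z : OnePoint ℂ) ∈ P ∩ U} := by
  obtain ⟨x0, hx0, hx0U⟩ := pt_fin h hU hne
  obtain ⟨δ2, hδ2, hball⟩ := Metric.isOpen_iff.1 (hU.preimage OnePoint.continuous_coe) x0 hx0U
  have hcl : IsClosed {z : ℂ | (z : OnePoint ℂ) ∈ P} := hP.preimage OnePoint.continuous_coe
  refine (dim_ac hcl hx0 (acn_of_acs h x0) hδ2).trans (dimH_mono ?_)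
  rintro z ⟨hz, hzb⟩
  exact ⟨hz, hball hzb⟩

end Pool.Agent.H21.AS
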